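import Pool.Agent.Helper11.NH.Sheet
open MeasureTheory Metric Set Filter Topology Real
open scoped ENNReal NNReal

namespace H11ST
namespace NH
namespace X95

variable {A S T F K : Set (E 2)} {V : Finset (E 2)} {r : ℝ}

/-- `T \ V` is relatively open in `S` -/
theorem closed_rest (hS : IsClosed S)
    (hO : ∀ z ∈ T, z ∉ V → ∃ ε > 0, S ∩ ball z ε ⊆ T) :
    IsClosed (S \ (T \ (V : Set (E 2)))) := by
  rw [← isOpen_compl_iff, Metric.isOpen_iff]
  intro z hz
  by_cases hzS : z ∈ S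
  · have hzO : z ∈ T \ (V : Set (E 2)) := by
      by_contra h
      exact hz ⟨hzS, h⟩
    obtain ⟨ε, hε, hsub⟩ := hO z hzO.1 hzO.2
    have hVo : IsOpen ((V : Set (E 2))ᶜ) := V.finite_toSet.isClosed.isOpen_compl
    obtain ⟨δ, hδ, hsub'⟩ := Metric.isOpen_iff.1 hVo z hzO.2
    refine ⟨min ε δ, lt_min hε hδ, fun w hw hwr => hwr.2 ⟨hsub ⟨hwr.1, ?_⟩, hsub' ?_⟩⟩
    · exact ball_subset_ball (min_le_left _ _) hw
    · exact ball_subset_ball (min_le_right _ _) hw
  · obtain ⟨δ, hδ, hsub⟩ := Metric.isOpen_iff.1 hS.isOpen_compl z hzS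
    exact ⟨δ, hδ, fun w hw hwr => hsub hw hwr.1⟩

theorem conn_new {W : Type*} [TopologicalSpace W] {X T V F K : Set W} (hX : IsPreconnected X)
    (hT : IsClosed T) (hR : IsClosed (X \ (T \ V))) (hTX : T ⊆ X) (hV : V.Nonempty)
    (hVT : V ⊆ T) (hF : IsClosed F) (hK : K ⊆ X \ (T \ V)) (hFK : IsPreconnected (F ∪ K))
    (hVFK : V ⊆ F ∪ K) : IsPreconnected ((X \ (T \ V)) ∪ F) := by
  obtain ⟨a, ha⟩ := hV
  have main : ∀ u v : Set W, IsClosed u → IsClosed v → (X \ (T \ V)) ∪ F ⊆ u ∪ v → Disjoint u v →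
      a ∈ u → (X \ (T \ V)) ∪ F ⊆ u := by
    intro u v hu hv hcov hd hau
    have hFK' : F ∪ K ⊆ u ∪ v := by
      rintro z (hz | hz)
      · exact hcov (Or.inr hz)
      · exact hcov (Or.inl (hK hz))
    have hem : (F ∪ K) ∩ (u ∩ v) = ∅ := by
      rw [disjoint_iff_inter_eq_empty.1 hd, inter_empty]
    have hFKu : F ∪ K ⊆ u := by
      rcases isPreconnected_iff_subset_of_disjoint_closed.1 hFK u v hu hv hFK' hem with h | h
      · exact h
      · exact absurd (h (hVFK ha)) (disjoint_left.1 hd hau)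
    intro z hz
    by_contra hzu
    have hzv : z ∈ v := (hcov hz).resolve_left hzu
    have hzR : z ∈ X \ (T \ V) := hz.resolve_right fun h => hzu (hFKu (Or.inl h))
    have hc : X ⊆ (T ∪ ((X \ (T \ V)) ∩ u)) ∪ ((X \ (T \ V)) ∩ v) := by
      intro w hw
      by_cases hwT : w ∈ T
      · exact Or.inl (Or.inl hwT)
      · have hwR : w ∈ X \ (T \ V) := ⟨hw, fun h => hwT h.1⟩
        rcases hcov (Or.inl hwR) with h | h
        · exact Or.inl (Or.inr ⟨hwR, h⟩)
        · exact Or.inr ⟨hwR, h⟩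
    obtain ⟨w, _, hw1, hwR, hwv⟩ := isPreconnected_closed_iff.1 hX _ _
      (hT.union (hR.inter hu)) (hR.inter hv) hc ⟨a, hTX (hVT ha), Or.inl (hVT ha)⟩
      ⟨z, hzR.1, hzR, hzv⟩
    have hwu : w ∈ u := by
      rcases hw1 with h | h
      · have hwV : w ∈ V := by
          by_contra h'
          exact hwR.2 ⟨h, h'⟩
        exact hFKu (hVFK hwV)
      · exact h.2
    exact disjoint_left.1 hd hwu hwv
  rw [isPreconnected_iff_subset_of_fully_disjoint_closed (hR.union hF)]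
  intro u v hu hv hcov hd
  have haR : a ∈ (X \ (T \ V)) ∪ F := Or.inl ⟨hTX (hVT ha), fun h => h.2 ha⟩
  rcases hcov haR with h | h
  · exact Or.inl (main u v hu hv hcov hd h)
  · exact Or.inr (main v u hv hu (by rwa [union_comm v u]) hd.symm h)

end X95

theorem exch : NH_EXCH := by
  intro A S r L hA T F K V hTc hTp hTS hTb hVn hVT hO hFc hFb hKS hKT hFK hVFK
  have hVn' : (V : Set (E 2)).Nonempty := hVn
  have hVT' : (V : Set (E 2)) ⊆ T := fun z hz => hVT z hz
  have hR : IsClosed (S \ (T \ (V : Set (E 2)))) := X95.closed_rest L.hS hO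
  have eR : (S ∪ A) \ (T \ (V : Set (E 2))) = (S \ (T \ (V : Set (E 2)))) ∪ A := by
    ext z
    constructor
    · rintro ⟨h | h, h'⟩
      · exact Or.inl ⟨h, h'⟩
      · exact Or.inr h
    · rintro (h | h)
      · exact ⟨Or.inl h.1, h.2⟩
      · exact ⟨Or.inr h, fun h' => L.far z h (hTb h'.1)⟩
  have hR' : IsClosed ((S ∪ A) \ (T \ (V : Set (E 2)))) := by
    rw [eR]; exact hR.union hA
  have hconn := X95.conn_new (X := S ∪ A) (T := T) (V := (V : Set (E 2))) (F := F) (K := K)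
    L.conn.isPreconnected hTc.isClosed hR' (hTS.trans subset_union_left) hVn' hVT' hFc.isClosed
    (fun z hz => ⟨Or.inl (hKS hz), fun h => h.2 (hKT z hz h.1)⟩) hFK (fun z hz => hVFK z hz)
  set S' : Set (E 2) := (S \ (T \ (V : Set (E 2)))) ∪ F with hS'
  have hS'c : IsClosed S' := hR.union hFc.isClosed
  have eA : S' ∪ A = ((S ∪ A) \ (T \ (V : Set (E 2)))) ∪ F := by
    rw [eR, hS', union_assoc, union_comm F A, ← union_assoc]
  obtain ⟨a, ha⟩ := hVn
  have hconn' : IsConnected (S' ∪ A) := by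
    rw [eA]
    exact ⟨⟨a, Or.inl ⟨Or.inl (hTS (hVT a ha)), fun h => h.2 ha⟩⟩, hconn⟩
  have hout : S' \ ball (0 : E 2) r = S \ ball (0 : E 2) r := by
    ext z
    constructor
    · rintro ⟨h | h, h'⟩
      · exact ⟨h.1, h'⟩
      · exact absurd (hFb h) h'
    · rintro ⟨h, h'⟩
      exact ⟨Or.inl ⟨h, fun hh => h' (hTb hh.1)⟩, h'⟩
  have h1 := L.minim S' hS'c hconn' hout
  have hfin : μH[1] ((S \ (T \ (V : Set (E 2)))) ∩ ball (0 : E 2) r) ≠ ∞ :=
    ne_top_of_le_ne_top L.fin (measure_mono (inter_subset_inter_left _ sdiff_subset))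
  have hTV : μH[1] T = μH[1] (T \ (V : Set (E 2))) := by
    have : NullSingletonClass (μH[1] : Measure (E 2)) :=
      Measure.nullSingletonClass_hausdorff _ one_pos
    have h0 : μH[1] (V : Set (E 2)) = 0 := V.finite_toSet.measure_zero _
    exact (measure_sdiff_null h0).symm
  have h2 : μH[1] ((S \ (T \ (V : Set (E 2)))) ∩ ball (0 : E 2) r) + μH[1] T ≤
      μH[1] (S ∩ ball (0 : E 2) r) := by
    rw [hTV, ← measure_union' (μ := μH[1]) _ (hR.measurableSet.inter measurableSet_ball)]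
    · refine measure_mono ?_
      rintro z (h | h)
      · exact ⟨h.1.1, h.2⟩
      · exact ⟨hTS h.1, hTb h.1⟩
    · rw [disjoint_left]
      rintro z h h'
      exact h.1.2 h'
  have h3 : μH[1] (S' ∩ ball (0 : E 2) r) ≤
      μH[1] ((S \ (T \ (V : Set (E 2)))) ∩ ball (0 : E 2) r) + μH[1] F := by
    refine le_trans (measure_mono ?_) (measure_union_le _ _)
    rintro z ⟨h | h, h'⟩
    · exact Or.inl ⟨h, h'⟩
    · exact Or.inr h
  exact (ENNReal.add_le_add_iff_left hfin).1 (h2.trans (h1.trans h3))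

end NH
end H11ST
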